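import Mathlib

/-!
For every `D ≥ 9` there is a connected simple bipartite graph of maximum degree `D` without an
interval colouring.

The graph: parts `X = {p, x₁, …, x_D}` and `Y = {w₁, w₂, w₃, y₁, …, y_{D-1}}`; every `x_i` is
adjacent to every `y_j` and to exactly one `w_j`, every `w_j` has at least three neighbours among
the `x_i`, and `p` is adjacent to `w₁, w₂, w₃`.  All degrees are `D`, except that of `p`
(which is `3`) and those of the `w_j` (at least `4`).  Counting the edges of each residue class
of colours modulo `D` from both sides gives the contradiction.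
-/

namespace Pool.Agent.Results.MP_fb9257_co.SimpleDegreeNine

open Finset

/-- `c` is an interval colouring of the simple graph `G`: colours are positive integers and at
every vertex `v` the colours of the edges incident to `v` are pairwise distinct and form a set of
consecutive integers `{a, a + 1, …, a + d - 1}`, where `d` is the number of these edges. -/
def IsIntervalColoring {V : Type*} (G : SimpleGraph V) (c : Sym2 V → ℕ) : Prop :=
  (∀ e ∈ G.edgeSet, 1 ≤ c e) ∧
    ∀ v : V, ∃ a : ℕ, Set.BijOn c (G.incidenceSet v) (Set.Ico a (a + (G.incidenceSet v).ncard))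

/-! ### Counting residues in intervals of naturals -/

/-- Number of elements of `[a, a + d)` congruent to `r` modulo `D`. -/
def resCount (D a d r : ℕ) : ℕ := #{n ∈ Finset.Ico a (a + d) | n % D = r}

lemma resCount_full (D a r : ℕ) (hr : r < D) : resCount D a D r = 1 := by
  unfold resCount
  have hper : Function.Periodic (fun n : ℕ => n % D = r) D := by
    intro n
    simp
  rw [Nat.filter_Ico_card_eq_of_periodic a D _ hper, Nat.count_eq_card_filter_range]
  rw [Finset.card_eq_one]
  refine ⟨r, ?_⟩
  ext n
  simp only [Finset.mem_filter, Finset.mem_range, Finset.mem_singleton]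
  constructor
  · rintro ⟨h1, h2⟩
    rw [Nat.mod_eq_of_lt h1] at h2
    exact h2
  · rintro rfl
    exact ⟨hr, Nat.mod_eq_of_lt hr⟩

lemma resCount_pos (D a d n : ℕ) (h1 : a ≤ n) (h2 : n < a + d) :
    1 ≤ resCount D a d (n % D) := by
  unfold resCount
  rw [Nat.one_le_iff_ne_zero, Finset.card_ne_zero]
  exact ⟨n, by simp [h1, h2]⟩

lemma resCount_three_zero (D q m : ℕ) (h : ∀ i < 3, (q + i) % D ≠ m % D) :
    resCount D q 3 (m % D) = 0 := by
  unfold resCount
  rw [Finset.card_eq_zero, Finset.filter_eq_empty_iff]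
  intro n hn
  rw [Finset.mem_Ico] at hn
  obtain ⟨i, rfl⟩ := Nat.exists_eq_add_of_le hn.1
  exact h i (by omega)

/-- The arithmetic heart of the argument. -/
lemma key (D q : ℕ) (hD : 9 ≤ D) (s d : Fin 3 → ℕ) (hd : ∀ j, 4 ≤ d j)
    (htouch : ∀ j, ∃ n, q ≤ n ∧ n < q + 3 ∧ s j ≤ n ∧ n < s j + d j)
    (hbal : ∀ r < D, D + resCount D q 3 r = (D - 1) + ∑ j, resCount D (s j) (d j) r) :
    False := by
  have hD0 : 0 < D := by omega
  have h1 := hbal ((q + 3) % D) (Nat.mod_lt _ hD0)
  have h2 := hbal ((q + (D - 1)) % D) (Nat.mod_lt _ hD0)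
  have e1 : resCount D q 3 ((q + 3) % D) = 0 := by
    apply resCount_three_zero
    intro i hi heq
    have hm : (q + i) ≡ (q + 3) [MOD D] := heq
    have hm2 : i ≡ 3 [MOD D] := Nat.ModEq.add_left_cancel' q hm
    have : i = 3 := Nat.ModEq.eq_of_lt_of_lt hm2 (by omega) (by omega)
    omega
  have e2 : resCount D q 3 ((q + (D - 1)) % D) = 0 := by
    apply resCount_three_zero
    intro i hi heq
    have hm : (q + i) ≡ (q + (D - 1)) [MOD D] := heq
    have hm2 : i ≡ (D - 1) [MOD D] := Nat.ModEq.add_left_cancel' q hm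
    have : i = D - 1 := Nat.ModEq.eq_of_lt_of_lt hm2 (by omega) (by omega)
    omega
  have hge : ∀ j, 1 ≤ resCount D (s j) (d j) ((q + 3) % D) +
      resCount D (s j) (d j) ((q + (D - 1)) % D) := by
    intro j
    obtain ⟨n, hn1, hn2, hn3, hn4⟩ := htouch j
    by_cases hc : q + 3 < s j + d j
    · have := resCount_pos D (s j) (d j) (q + 3) (by omega) hc
      omega
    · have hdj := hd j
      have hlt : s j < q := by omega
      have hpos := resCount_pos D (s j) (d j) (q - 1) (by omega) (by omega)
      have hmod : (q - 1) % D = (q + (D - 1)) % D := by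
        have : q + (D - 1) = (q - 1) + D := by omega
        rw [this, Nat.add_mod_right]
      rw [hmod] at hpos
      omega
  rw [e1] at h1
  rw [e2] at h2
  rw [Fin.sum_univ_three] at h1 h2
  have g0 := hge 0
  have g1 := hge 1
  have g2 := hge 2
  omega

/-! ### The graph -/

/-- Adjacency between the two parts: `none` is `p`, `some i` is `x_i`, `inl j` is `w_j`,
`inr j` is `y_j`. -/
def A (D : ℕ) : Option (Fin D) → (Fin 3 ⊕ Fin (D - 1)) → Bool
  | none, Sum.inl _ => true
  | none, Sum.inr _ => false
  | some i, Sum.inl j => decide (i.val % 3 = j.val)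
  | some _, Sum.inr _ => true

@[simp] lemma A_none_inl (D : ℕ) (j : Fin 3) : A D none (Sum.inl j) = true := rfl

@[simp] lemma A_none_inr (D : ℕ) (j : Fin (D - 1)) : A D none (Sum.inr j) = false := rfl

@[simp] lemma A_some_inr (D : ℕ) (i : Fin D) (j : Fin (D - 1)) :
    A D (some i) (Sum.inr j) = true := rfl

@[simp] lemma A_some_inl (D : ℕ) (i : Fin D) (j : Fin 3) :
    A D (some i) (Sum.inl j) = true ↔ i.val % 3 = j.val := by
  simp [A]

/-- The vertex set. -/
abbrev Vert (D : ℕ) : Type := Option (Fin D) ⊕ (Fin 3 ⊕ Fin (D - 1))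

/-- The bipartite graph. -/
def Gr (D : ℕ) : SimpleGraph (Vert D) where
  Adj u v := match u, v with
    | Sum.inl x, Sum.inr y => A D x y = true
    | Sum.inr y, Sum.inl x => A D x y = true
    | _, _ => False
  symm := by
    constructor
    rintro (x | y) (x' | y') h
    · exact h
    · exact h
    · exact h
    · exact h
  loopless := by
    constructor
    rintro (x | y) h
    · exact h
    · exact h

/-! ### Transfer of the colouring condition to one vertex -/

lemma vertex_data {V β : Type*} [DecidableEq β] (G : SimpleGraph V) (c : Sym2 V → ℕ)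
    (hc : IsIntervalColoring G c) (v : V) (e : β → Sym2 V) (he : Function.Injective e)
    (S : Finset β) (hS : G.incidenceSet v = e '' (S : Set β)) (D : ℕ) :
    ∃ a : ℕ, (∀ b ∈ S, a ≤ c (e b) ∧ c (e b) < a + #S) ∧
      ∀ r, #{b ∈ S | c (e b) % D = r} = resCount D a #S r := by
  obtain ⟨a, ha⟩ := hc.2 v
  have hcard : (G.incidenceSet v).ncard = #S := by
    rw [hS, Set.ncard_image_of_injective _ he, Set.ncard_coe_finset]
  rw [hcard, hS] at ha
  have hinj : Set.InjOn (fun b => c (e b)) (S : Set β) := by
    intro b hb b' hb' h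
    exact he (ha.injOn ⟨b, hb, rfl⟩ ⟨b', hb', rfl⟩ h)
  have himg : S.image (fun b => c (e b)) = Finset.Ico a (a + #S) := by
    apply Finset.coe_injective
    rw [Finset.coe_image, Finset.coe_Ico, ← ha.image_eq, Set.image_image]
  refine ⟨a, ?_, ?_⟩
  · intro b hb
    have : c (e b) ∈ S.image (fun b => c (e b)) := Finset.mem_image_of_mem _ hb
    rw [himg, Finset.mem_Ico] at this
    exact this
  · intro r
    unfold resCount
    rw [← himg, Finset.filter_image, Finset.card_image_of_injOn]
    intro b hb b' hb' h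
    have hb1 : b ∈ S := (Finset.mem_filter.mp (Finset.mem_coe.mp hb)).1
    have hb2 : b' ∈ S := (Finset.mem_filter.mp (Finset.mem_coe.mp hb')).1
    exact hinj hb1 hb2 h

lemma inc_left (D : ℕ) (x : Option (Fin D)) :
    (Gr D).incidenceSet (Sum.inl x) =
      (fun y => s(Sum.inl x, Sum.inr y)) ''
        (({y | A D x y = true} : Finset (Fin 3 ⊕ Fin (D - 1))) : Set _) := by
  ext e
  induction e using Sym2.ind with
  | _ u v =>
    simp only [SimpleGraph.mk'_mem_incidenceSet_iff, Set.mem_image, Finset.coe_filter,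
      Finset.mem_univ, true_and, Set.mem_ofPred_eq]
    constructor
    · rintro ⟨hadj, h | h⟩
      · subst h
        rcases v with x' | y
        · exact absurd hadj (by simp [Gr])
        · exact ⟨y, hadj, rfl⟩
      · subst h
        rcases u with x' | y
        · exact absurd hadj (by simp [Gr])
        · exact ⟨y, hadj, Sym2.eq_swap⟩
    · rintro ⟨y, hy, h⟩
      rw [Sym2.eq_iff] at h
      rcases h with ⟨h1, h2⟩ | ⟨h1, h2⟩
      · subst h1 h2
        exact ⟨hy, Or.inl rfl⟩
      · subst h1 h2
        exact ⟨hy, Or.inr rfl⟩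

lemma inc_right (D : ℕ) (y : Fin 3 ⊕ Fin (D - 1)) :
    (Gr D).incidenceSet (Sum.inr y) =
      (fun x => s(Sum.inl x, Sum.inr y)) ''
        (({x | A D x y = true} : Finset (Option (Fin D))) : Set _) := by
  ext e
  induction e using Sym2.ind with
  | _ u v =>
    simp only [SimpleGraph.mk'_mem_incidenceSet_iff, Set.mem_image, Finset.coe_filter,
      Finset.mem_univ, true_and, Set.mem_ofPred_eq]
    constructor
    · rintro ⟨hadj, h | h⟩
      · subst h
        rcases v with x | y'
        · exact ⟨x, hadj, Sym2.eq_swap⟩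
        · exact absurd hadj (by simp [Gr])
      · subst h
        rcases u with x | y'
        · exact ⟨x, hadj, rfl⟩
        · exact absurd hadj (by simp [Gr])
    · rintro ⟨x, hx, h⟩
      rw [Sym2.eq_iff] at h
      rcases h with ⟨h1, h2⟩ | ⟨h1, h2⟩
      · subst h1 h2
        exact ⟨hx, Or.inr rfl⟩
      · subst h1 h2
        exact ⟨hx, Or.inl rfl⟩

/-! ### Degrees -/

lemma deg_p (D : ℕ) : #({y | A D none y = true} : Finset (Fin 3 ⊕ Fin (D - 1))) = 3 := by
  have : ({y | A D none y = true} : Finset (Fin 3 ⊕ Fin (D - 1))) =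
      (Finset.univ : Finset (Fin 3)).map Function.Embedding.inl := by
    ext y
    rcases y with j | j <;> simp
  rw [this]
  simp

lemma deg_x (D : ℕ) (hD : 1 ≤ D) (i : Fin D) :
    #({y | A D (some i) y = true} : Finset (Fin 3 ⊕ Fin (D - 1))) = D := by
  have : ({y | A D (some i) y = true} : Finset (Fin 3 ⊕ Fin (D - 1))) =
      insert (Sum.inl ⟨i.val % 3, Nat.mod_lt _ (by norm_num)⟩)
        ((Finset.univ : Finset (Fin (D - 1))).map Function.Embedding.inr) := by
    ext y
    rcases y with j | j
    · simp only [Finset.mem_filter, Finset.mem_univ, true_and, A_some_inl,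
        Finset.mem_insert, Sum.inl.injEq, Finset.mem_map, Function.Embedding.inr_apply,
        reduceCtorEq, exists_false, or_false, Fin.ext_iff]
      exact eq_comm
    · simp
  rw [this, Finset.card_insert_of_notMem (by simp), Finset.card_map, Finset.card_univ,
    Fintype.card_fin]
  omega

lemma deg_y (D : ℕ) (j : Fin (D - 1)) :
    #({x | A D x (Sum.inr j) = true} : Finset (Option (Fin D))) = D := by
  have : ({x | A D x (Sum.inr j) = true} : Finset (Option (Fin D))) =
      (Finset.univ : Finset (Fin D)).map Function.Embedding.some := by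
    ext x
    rcases x with _ | i <;> simp
  rw [this]
  simp

lemma deg_w (D : ℕ) (hD : 9 ≤ D) (j : Fin 3) :
    4 ≤ #({x | A D x (Sum.inl j) = true} : Finset (Option (Fin D))) := by
  have hj := j.isLt
  have hsub : ({none, some ⟨j.val, by omega⟩, some ⟨j.val + 3, by omega⟩,
      some ⟨j.val + 6, by omega⟩} : Finset (Option (Fin D))) ⊆
      ({x | A D x (Sum.inl j) = true} : Finset (Option (Fin D))) := by
    intro x hx
    simp only [Finset.mem_insert, Finset.mem_singleton] at hx
    rw [Finset.mem_filter]
    refine ⟨Finset.mem_univ _, ?_⟩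
    rcases hx with rfl | rfl | rfl | rfl
    · rfl
    all_goals rw [A_some_inl]; simp only []; omega
  refine le_trans ?_ (Finset.card_le_card hsub)
  rw [Finset.card_insert_of_notMem (by simp), Finset.card_insert_of_notMem (by simp),
    Finset.card_insert_of_notMem (by simp), Finset.card_singleton]

lemma deg_w_le (D : ℕ) (hD : 9 ≤ D) (j : Fin 3) :
    #({x | A D x (Sum.inl j) = true} : Finset (Option (Fin D))) ≤ D := by
  have hj := j.isLt
  have hne : some (⟨(j.val + 1) % 3, by omega⟩ : Fin D) ∉
      ({x | A D x (Sum.inl j) = true} : Finset (Option (Fin D))) := by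
    rw [Finset.mem_filter, A_some_inl]
    simp only [Finset.mem_univ, true_and]
    omega
  have hlt : #({x | A D x (Sum.inl j) = true} : Finset (Option (Fin D))) <
      #(Finset.univ : Finset (Option (Fin D))) := by
    apply Finset.card_lt_card
    rw [Finset.ssubset_univ_iff]
    intro h
    rw [h] at hne
    exact hne (Finset.mem_univ _)
  rw [Finset.card_univ, Fintype.card_option, Fintype.card_fin] at hlt
  omega

/-! ### No interval colouring -/

lemma double_count (D : ℕ) (f : Option (Fin D) → (Fin 3 ⊕ Fin (D - 1)) → ℕ) (r : ℕ) :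
    ∑ x, #{y ∈ ({y | A D x y = true} : Finset (Fin 3 ⊕ Fin (D - 1))) | f x y % D = r} =
    ∑ y, #{x ∈ ({x | A D x y = true} : Finset (Option (Fin D))) | f x y % D = r} := by
  simp only [Finset.card_filter, Finset.sum_filter]
  rw [Finset.sum_comm]

theorem no_coloring (D : ℕ) (hD : 9 ≤ D) (c : Sym2 (Vert D) → ℕ) :
    ¬ IsIntervalColoring (Gr D) c := by
  intro hc
  have hinjL : ∀ x : Option (Fin D), Function.Injective
      (fun y : Fin 3 ⊕ Fin (D - 1) => (s(Sum.inl x, Sum.inr y) : Sym2 (Vert D))) := by
    intro x y y' h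
    simpa using h
  have hinjR : ∀ y : Fin 3 ⊕ Fin (D - 1), Function.Injective
      (fun x : Option (Fin D) => (s(Sum.inl x, Sum.inr y) : Sym2 (Vert D))) := by
    intro y x x' h
    simpa using h
  have hX := fun x => vertex_data (Gr D) c hc (Sum.inl x) _ (hinjL x) _ (inc_left D x) D
  have hY := fun y => vertex_data (Gr D) c hc (Sum.inr y) _ (hinjR y) _ (inc_right D y) D
  choose aX hX1 hX2 using hX
  choose aY hY1 hY2 using hY
  refine key D (aX none) hD (fun j => aY (Sum.inl j))
    (fun j => #({x | A D x (Sum.inl j) = true} : Finset (Option (Fin D))))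
    (fun j => deg_w D hD j) ?_ ?_
  · intro j
    have h1 := hX1 none (Sum.inl j) (by simp)
    have h2 := hY1 (Sum.inl j) none (by simp)
    rw [deg_p] at h1
    exact ⟨_, h1.1, h1.2, h2.1, h2.2⟩
  · intro r hr
    have hdc := double_count D (fun x y => c s(Sum.inl x, Sum.inr y)) r
    rw [Fintype.sum_option, Fintype.sum_sum_type] at hdc
    rw [hX2 none r] at hdc
    simp only [hX2, hY2] at hdc
    rw [deg_p] at hdc
    have e1 : ∀ i : Fin D, resCount D (aX (some i))
        #({y | A D (some i) y = true} : Finset (Fin 3 ⊕ Fin (D - 1))) r = 1 := by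
      intro i
      rw [deg_x D (by omega) i]
      exact resCount_full D _ r hr
    have e2 : ∀ j : Fin (D - 1), resCount D (aY (Sum.inr j))
        #({x | A D x (Sum.inr j) = true} : Finset (Option (Fin D))) r = 1 := by
      intro j
      rw [deg_y D j]
      exact resCount_full D _ r hr
    simp only [e1, e2] at hdc
    simp only [Finset.sum_const, Finset.card_univ, Fintype.card_fin, smul_eq_mul, mul_one] at hdc
    omega

/-! ### Structure of the graph -/

instance (D : ℕ) : DecidableRel (Gr D).Adj := by
  rintro (x | y) (x' | y')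
  · exact isFalse (fun h => h)
  · exact inferInstanceAs (Decidable (A D x y' = true))
  · exact inferInstanceAs (Decidable (A D x' y = true))
  · exact isFalse (fun h => h)

lemma adj_lr (D : ℕ) (x : Option (Fin D)) (y : Fin 3 ⊕ Fin (D - 1)) :
    (Gr D).Adj (Sum.inl x) (Sum.inr y) ↔ A D x y = true := Iff.rfl

lemma adj_rl (D : ℕ) (x : Option (Fin D)) (y : Fin 3 ⊕ Fin (D - 1)) :
    (Gr D).Adj (Sum.inr y) (Sum.inl x) ↔ A D x y = true := Iff.rfl

lemma adj_ll (D : ℕ) (x x' : Option (Fin D)) :
    ¬ (Gr D).Adj (Sum.inl x) (Sum.inl x') := fun h => h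

lemma adj_rr (D : ℕ) (y y' : Fin 3 ⊕ Fin (D - 1)) :
    ¬ (Gr D).Adj (Sum.inr y) (Sum.inr y') := fun h => h

lemma bip (D : ℕ) : (Gr D).IsBipartite := by
  refine ⟨SimpleGraph.Coloring.mk (fun v => if v.isLeft then (0 : Fin 2) else 1) ?_⟩
  rintro (x | y) (x' | y') h
  · exact absurd h (adj_ll D x x')
  · simp
  · simp
  · exact absurd h (adj_rr D y y')

lemma conn (D : ℕ) (hD : 9 ≤ D) : (Gr D).Connected := by
  have hD1 : 0 < D - 1 := by omega
  -- everything is joined to `y₀`
  let y0 : Vert D := Sum.inr (Sum.inr ⟨0, hD1⟩)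
  have hx : ∀ i : Fin D, (Gr D).Reachable (Sum.inl (some i)) y0 := by
    intro i
    exact SimpleGraph.Adj.reachable ((adj_lr D _ _).2 (by simp))
  have hw : ∀ j : Fin 3, (Gr D).Reachable (Sum.inr (Sum.inl j)) y0 := by
    intro j
    have hj := j.isLt
    refine SimpleGraph.Reachable.trans ?_ (hx ⟨j.val, by omega⟩)
    refine SimpleGraph.Adj.reachable ((adj_rl D _ _).2 ?_)
    rw [A_some_inl]
    exact Nat.mod_eq_of_lt hj
  have hp : (Gr D).Reachable (Sum.inl none) y0 := by
    refine SimpleGraph.Reachable.trans ?_ (hw 0)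
    exact SimpleGraph.Adj.reachable ((adj_lr D _ _).2 (by simp))
  have hy : ∀ j : Fin (D - 1), (Gr D).Reachable (Sum.inr (Sum.inr j)) y0 := by
    intro j
    refine SimpleGraph.Reachable.trans ?_ (hx ⟨0, by omega⟩)
    exact SimpleGraph.Adj.reachable ((adj_rl D _ _).2 (by simp))
  have hall : ∀ v : Vert D, (Gr D).Reachable v y0 := by
    rintro ((_ | i) | (j | j))
    · exact hp
    · exact hx i
    · exact hw j
    · exact hy j
  have : Nonempty (Vert D) := ⟨y0⟩
  exact SimpleGraph.Connected.mk (fun u v => (hall u).trans (hall v).symm)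

lemma degree_left (D : ℕ) (x : Option (Fin D)) :
    (Gr D).degree (Sum.inl x) =
      #({y | A D x y = true} : Finset (Fin 3 ⊕ Fin (D - 1))) := by
  rw [← SimpleGraph.card_neighborFinset_eq_degree]
  have : (Gr D).neighborFinset (Sum.inl x) =
      ({y | A D x y = true} : Finset (Fin 3 ⊕ Fin (D - 1))).map Function.Embedding.inr := by
    ext v
    rw [SimpleGraph.mem_neighborFinset]
    rcases v with x' | y
    · simp [adj_ll]
    · simp [adj_lr]
  rw [this, Finset.card_map]

lemma degree_right (D : ℕ) (y : Fin 3 ⊕ Fin (D - 1)) :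
    (Gr D).degree (Sum.inr y) =
      #({x | A D x y = true} : Finset (Option (Fin D))) := by
  rw [← SimpleGraph.card_neighborFinset_eq_degree]
  have : (Gr D).neighborFinset (Sum.inr y) =
      ({x | A D x y = true} : Finset (Option (Fin D))).map Function.Embedding.inl := by
    ext v
    rw [SimpleGraph.mem_neighborFinset]
    rcases v with x | y'
    · simp [adj_rl]
    · simp [adj_rr]
  rw [this, Finset.card_map]

lemma maxdeg (D : ℕ) (hD : 9 ≤ D) : (Gr D).maxDegree = D := by
  apply le_antisymm
  · apply SimpleGraph.maxDegree_le_of_forall_degree_le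
    rintro ((_ | i) | (j | j))
    · rw [degree_left, deg_p]; omega
    · rw [degree_left, deg_x D (by omega)]
    · rw [degree_right]; exact deg_w_le D hD j
    · rw [degree_right, deg_y]
  · have h := (Gr D).degree_le_maxDegree (Sum.inl (some ⟨0, by omega⟩))
    rwa [degree_left, deg_x D (by omega)] at h

/-- For every `D ≥ 9` there is a connected simple bipartite graph with `2D + 3` vertices and
maximum degree `D` that has no interval colouring.  In particular the answer to the question is
negative for `Δ = 9, 10, 11`, already for simple graphs. -/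
theorem result (D : ℕ) (hD : 9 ≤ D) :
    ∃ (V : Type) (_ : Fintype V) (G : SimpleGraph V) (_ : DecidableRel G.Adj),
      G.Connected ∧ G.IsBipartite ∧ G.maxDegree = D ∧ Fintype.card V = 2 * D + 3 ∧
        ¬ ∃ c : Sym2 V → ℕ, IsIntervalColoring G c := by
  refine ⟨Vert D, inferInstance, Gr D, inferInstance, conn D hD, bip D, maxdeg D hD, ?_, ?_⟩
  · simp only [Vert, Fintype.card_sum, Fintype.card_option, Fintype.card_fin]
    omega
  · rintro ⟨c, hc⟩
    exact no_coloring D hD c hc

end Pool.Agent.Results.MP_fb9257_co.SimpleDegreeNine
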